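import Pool.Agent.helper41.HFE.SpecK

/-!
# Project HFE (MP_3221a1_ag), row UYK: exchange of the variables in `UpXK`
-/

set_option autoImplicit false

open Polynomial Module Pool.Agent.HFN

namespace Pool.Agent.HFE

noncomputable section

theorem UYK_chi (i j a b : ℕ) : chi j i b a = chi i j a b := by
  unfold chi
  rw [Nat.mul_comm (j + 1) (i + 1), Nat.mul_comm (j + 1 - b) (i + 1 - a)]

theorem UYK_bg (κ : ℕ) (Z : Finset (ℂ × ℂ)) (g : AA) (h : Bg κ (Z.image Prod.swap) g) : Bg κ Z (sw g) := by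
  have e : (Z.image Prod.swap).image Prod.swap = Z := by
    rw [Finset.image_image]
    simp
  rcases h with h | h
  · right
    rw [sw_sw]
    exact h
  · left
    rw [e] at h
    exact h

theorem UYK_uk (κ r i j : ℕ) (h : Uk κ r i j) : Uk κ r j i := by
  obtain ⟨h1, h2, h3, h4, h5⟩ := h
  exact ⟨h2, h1, by linarith, by linarith, by linarith⟩

open Pool.Agent.helper29.JZ in
/-- **UYK** -/
theorem UYK : UYK_stmt := by
  intro hSWB hSWZ hTRA hX κ h h' x y M W a b hκ hx hy hcol hrow hc hB i j hU f hf hdY hdX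
  obtain ⟨-, s2, s3, s4, -⟩ := hSWB
  obtain ⟨t1, t2, t3, _⟩ := hTRA h h' M
  have hB' : HBk κ y x (tr M) (tr W) b a := by
    intro g hg
    rw [s3] at hg
    obtain ⟨e1, e2, e3⟩ := hB (sw g) (UYK_bg _ _ _ hg)
    rw [dX_sw] at e1
    rw [dY_sw] at e2
    refine ⟨e2, e1, ?_⟩
    intro p hp
    obtain ⟨q, hq, rfl⟩ := Finset.mem_image.1 hp
    have h1 := e3 q hq
    rw [ev_sw] at h1
    have h2 : q.swap ∈ tr W ↔ q ∈ W := by
      unfold tr
      constructor
      · intro h3
        obtain ⟨q', hq', h4⟩ := Finset.mem_image.1 h3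
        rw [Prod.swap_injective h4] at hq'
        exact hq'
      · exact fun h3 => Finset.mem_image_of_mem _ h3
    rw [h2]
    exact h1
  have hf' : sw f ≠ 0 := fun h0 => hf ((map_eq_zero_iff sw sw.injective).1 h0)
  have key := hX κ h' h y x (tr M) (tr W) b a hκ hy hx (fun k => by rw [t2]; exact hrow k) (fun m => by rw [t3]; exact hcol m)
    (by rw [t1]; exact hc) hB' j i (by rw [t1]; exact UYK_uk _ _ _ _ hU) (sw f) hf' (by rw [dX_sw]; exact hdY) (by rw [dY_sw]; exact hdX)
  rw [s3, (hSWZ _).2.1, dX_sw, dY_sw, s4, UYK_chi] at key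
  exact key

end

end Pool.Agent.HFE
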